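import Pool.Agent.LibHC.Final

/-!
# A weakly compact cardinal suffices to force `ℵ₂ →_hc (ℵ₂)²_ω`

See `Pool/Agent/LibHC/Defs.lean` for the definitions (forcing relation for statements about names
of subsets of ground model sets, the highly connected partition relation, weak compactness).

The forcing notion used in the proof is the Lévy collapse `Col(ω₁, <κ)`.
-/

namespace Pool.Agent.Results.MP_b3ce86_lc.WeaklyCompact

open Pool.Agent.LibHC

universe u

/-- For every weakly compact cardinal `κ` there is a forcing notion `P` which forces
`ℵ₂ →_hc (ℵ₂)²_ω`. -/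
theorem result : ∀ κ : Cardinal.{u}, IsWeaklyCompact κ →
    ∃ (P : Type u) (_ : PartialOrder P), Nonempty P ∧ ForcesHC P := by
  intro κ h
  exact ⟨Lv κ.ord.ToType (Cardinal.aleph 1 : Cardinal.{u}).ord.ToType, inferInstance,
    inferInstance, levy_forcesHC h⟩

end Pool.Agent.Results.MP_b3ce86_lc.WeaklyCompact
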